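import Pool.Agent.Lib.RzW.Full

/-!
MP_aeeb04_al. A criterion: a homomorphism `θ` on a normal subgroup `K` and an element `c` of `K` with
`θ (g⁻¹ c g) ≠ 1` for finitely many cosets `g K`, and for at least one.
-/

set_option autoImplicit false

namespace Pool.Agent.Results.MP_aeeb04_al.CharacterCriterion

open RzT

theorem result {Γ A : Type} [Group Γ] [Group A] (K : Subgroup Γ) [K.Normal] (θ : Γ → A)
    (hθ : ∀ x ∈ K, ∀ y ∈ K, θ (x * y) = θ x * θ y) (c : Γ) (hc : c ∈ K)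
    (hfin : {y : Γ ⧸ K | ∃ g : Γ, (QuotientGroup.mk g : Γ ⧸ K) = y ∧ θ (g⁻¹ * c * g) ≠ 1}.Finite)
    (hne : ∃ g : Γ, θ (g⁻¹ * c * g) ≠ 1) :
    ((∃ S : Finset (Γ ⧸ K), Infinite (Subgroup.closure (S : Set (Γ ⧸ K)))) →
      ∃ B : Set Γ, B.Nonempty ∧ ¬ ∃ μ : Set Γ → ENNReal, μ B = 1 ∧ InvMeas μ) ∧
    ((∃ w : Γ, ∀ k : ℕ, 0 < k → w ^ k ∉ K) →
      ∃ f : Fin 2 → Γ, Function.Injective ⇑(FreeSemigroup.lift f)) ∧
    (Group.IsNilpotent K → (∀ w : Γ, ∃ k : ℕ, 0 < k ∧ w ^ k ∈ K) →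
      ¬ ∃ f : Fin 2 → Γ, Function.Injective ⇑(FreeSemigroup.lift f)) ∧
    (Group.IsSolvable K → Folner (Γ ⧸ K) →
      ∃ m : Set Γ → ENNReal, m Set.univ = 1 ∧ InvMeas m) :=
  RzW.full K θ hθ c hc hfin hne

end Pool.Agent.Results.MP_aeeb04_al.CharacterCriterion
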