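import Pool.Agent.Lib.RzT.Grig

/-!
MP_aeeb04_al. A finitely generated torsion-free group that is amenable, has no free subsemigroup of
rank 2 and is not supramenable.
-/

set_option autoImplicit false

namespace Pool.Agent.Results.MP_aeeb04_al.TorsionFree

open RzT

theorem result :
    ∃ (Γ : Type) (_ : Group Γ), Group.FG Γ ∧
      (∀ (g : Γ) (k : ℕ), 0 < k → g ^ k = 1 → g = 1) ∧
      (∃ m : Set Γ → ENNReal, m Set.univ = 1 ∧
        (∀ B C : Set Γ, Disjoint B C → m (B ∪ C) = m B + m C) ∧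
        (∀ (g : Γ) (B : Set Γ), m ((fun x => g * x) '' B) = m B)) ∧
      (∀ x y : Γ, ∃ k l : ℕ, 0 < k ∧ 0 < l ∧ x ^ k * y ^ l = y ^ l * x ^ k) ∧
      (∀ f : Fin 2 → Γ, ¬ Function.Injective ⇑(FreeSemigroup.lift f)) ∧
      ∃ A : Set Γ, A.Nonempty ∧ ¬ ∃ μ : Set Γ → ENNReal, μ A = 1 ∧
        (∀ B C : Set Γ, Disjoint B C → μ (B ∪ C) = μ B + μ C) ∧
        (∀ (g : Γ) (B : Set Γ), μ ((fun x => g * x) '' B) = μ B) := by
  obtain ⟨N, hN, hinf, hper, hF⟩ := exists_N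
  obtain ⟨h1, h2, ⟨A, hA, hA2⟩, h4⟩ := main N hper
  obtain ⟨-, m, hm, hm2, hm3⟩ := h4 hF
  refine ⟨FreeGroup (Fin 4) ⧸ ⁅N, N⁆, inferInstance, inferInstance, h1, ⟨m, hm, hm2, hm3⟩, ?_, h2,
    A, hA, hA2⟩
  intro x y
  obtain ⟨a, rfl⟩ := QuotientGroup.mk_surjective x
  obtain ⟨b, rfl⟩ := QuotientGroup.mk_surjective y
  obtain ⟨p, hp, hap⟩ := hper a
  obtain ⟨q, hq, hbq⟩ := hper b
  refine ⟨p, q, hp, hq, ?_⟩
  rw [← QuotientGroup.mk_pow, ← QuotientGroup.mk_pow]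
  exact mk_comm N hap hbq

end Pool.Agent.Results.MP_aeeb04_al.TorsionFree
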