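import Pool.Agent.Lib.RzV.Full

/-!
MP_aeeb04_al. The quotients `F/M`, `M` below a verbal subgroup of `N` or above a term of its lower
central series.
-/

set_option autoImplicit false

namespace Pool.Agent.Results.MP_aeeb04_al.VerbalExtensions

open RzT RzV

theorem result {α : Type} (N M : Subgroup (FreeGroup α)) [N.Normal] [M.Normal] (hN : N ≠ ⊥) :
    (∀ (K : Type) [Group K] [Nontrivial K] (W : Set (FreeGroup ℕ)),
      (∀ w ∈ W, ∀ φ : FreeGroup ℕ →* K, φ w = 1) → M ≤ Verb N W →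
      ((∃ S : Finset (FreeGroup α ⧸ N),
          Infinite (Subgroup.closure (S : Set (FreeGroup α ⧸ N)))) →
        ∃ A : Set (FreeGroup α ⧸ M), A.Nonempty ∧
          ¬ ∃ μ : Set (FreeGroup α ⧸ M) → ENNReal, μ A = 1 ∧ InvMeas μ) ∧
      ((∃ w : FreeGroup α, ∀ k : ℕ, 0 < k → w ^ k ∉ N) →
        ∃ f : Fin 2 → FreeGroup α ⧸ M, Function.Injective ⇑(FreeSemigroup.lift f))) ∧
    ((∃ c : ℕ, L N c ≤ M) → (∀ w : FreeGroup α, ∃ k : ℕ, 0 < k ∧ w ^ k ∈ N) →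
      ¬ ∃ f : Fin 2 → FreeGroup α ⧸ M, Function.Injective ⇑(FreeSemigroup.lift f)) ∧
    ((∃ i : ℕ, D N i ≤ M) → Folner (FreeGroup α ⧸ N) →
      ∃ m : Set (FreeGroup α ⧸ M) → ENNReal, m Set.univ = 1 ∧ InvMeas m) ∧
    (M = ⁅N, N⁆ → ∀ (g : FreeGroup α ⧸ M) (k : ℕ), 0 < k → g ^ k = 1 → g = 1) :=
  RzV.full N M hN

end Pool.Agent.Results.MP_aeeb04_al.VerbalExtensions
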